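import Pool.Agent.Helper68.LM2.St

/-!
# MP_cb927e_an, project LM2, module LI: integrals over the level
-/

set_option autoImplicit false

open MeasureTheory Set Filter Topology
open scoped ENNReal RealInnerProductSpace

namespace Pool.Agent.Helper23.LM2

open Pool.Agent.Helper68.LM2 Pool.Agent.Helper68.LM

/-- the integral of a power over `(0, T)` -/
lemma lintegral_low (a T : ℝ) (ha : 0 < a) (hT : 0 ≤ T) :
    ∫⁻ lam in Ioo (0 : ℝ) T, ENNReal.ofReal (lam ^ (a - 1)) = ENNReal.ofReal (T ^ a / a) := by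
  have hint : IntervalIntegrable (fun x : ℝ => x ^ (a - 1)) volume 0 T :=
    intervalIntegral.intervalIntegrable_rpow' (by linarith)
  have hint2 : IntegrableOn (fun x : ℝ => x ^ (a - 1)) (Ioo 0 T) volume :=
    ((intervalIntegrable_iff_integrableOn_Ioo_of_le hT).1 hint)
  rw [← ofReal_integral_eq_lintegral_ofReal hint2]
  · congr 1
    rw [← integral_Ioc_eq_integral_Ioo, ← intervalIntegral.integral_of_le hT,
      integral_rpow (Or.inl (by linarith))]
    have h1 : a - 1 + 1 = a := by ring
    rw [h1, Real.zero_rpow ha.ne', sub_zero]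
  · filter_upwards [ae_restrict_mem measurableSet_Ioo] with x hx
    exact Real.rpow_nonneg hx.1.le _

/-- the integral of a power over `(T, ∞)` -/
lemma lintegral_high (b T : ℝ) (hb : 0 < b) (hT : 0 < T) :
    ∫⁻ lam in Ioi T, ENNReal.ofReal (lam ^ (-b - 1)) = ENNReal.ofReal (T ^ (-b) / b) := by
  have hint : IntegrableOn (fun x : ℝ => x ^ (-b - 1)) (Ioi T) volume :=
    integrableOn_Ioi_rpow_of_lt (by linarith) hT
  rw [← ofReal_integral_eq_lintegral_ofReal hint]
  · congr 1
    rw [integral_Ioi_rpow_of_lt (by linarith) hT]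
    have h1 : -b - 1 + 1 = -b := by ring
    rw [h1, neg_div_neg_eq]
  · filter_upwards [ae_restrict_mem measurableSet_Ioi] with x hx
    exact Real.rpow_nonneg (hT.trans hx).le _

/-- Tonelli -/
lemma tonelli (w : ℝ → ℝ≥0∞) (hw : Measurable w) (hw' : ∀ x, w x ≠ ⊤) (F : ℝ → ℝ × ℝ → ℝ≥0∞)
    (hF : Measurable (fun q : ℝ × (ℝ × ℝ) => F q.1 q.2)) (G : ℝ × ℝ → ℝ≥0∞) (K : ℝ≥0∞)
    (hK : K ≠ ⊤)
    (h : ∀ z, ∫⁻ lam in Ioi (0 : ℝ), w lam * F lam z ≤ K * G z) :
    ∫⁻ lam in Ioi (0 : ℝ), w lam * ∫⁻ z, F lam z ≤ K * ∫⁻ z, G z := by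
  calc ∫⁻ lam in Ioi (0 : ℝ), w lam * ∫⁻ z, F lam z
      = ∫⁻ lam in Ioi (0 : ℝ), ∫⁻ z, w lam * F lam z := by
        refine lintegral_congr fun lam => ?_
        rw [lintegral_const_mul' _ _ (hw' lam)]
    _ = ∫⁻ z, ∫⁻ lam in Ioi (0 : ℝ), w lam * F lam z := by
        refine lintegral_lintegral_swap ?_
        exact ((hw.comp measurable_fst).mul hF).aemeasurable
    _ ≤ ∫⁻ z, K * G z := lintegral_mono h
    _ = K * ∫⁻ z, G z := lintegral_const_mul' _ _ hK

lemma measurable_rp (s : ℝ) : Measurable (fun lam : ℝ => ENNReal.ofReal (lam ^ s)) :=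
  (measurable_id.pow_const s).ennreal_ofReal

lemma measurable_Lv (g : ℝ × ℝ → ℝ) (hg : Measurable g) (r : ℕ) :
    Measurable (fun q : ℝ × (ℝ × ℝ) => Lv g q.1 r q.2) := by
  classical
  unfold Lv
  have h1 : MeasurableSet {q : ℝ × (ℝ × ℝ) | g q.2 ≤ 2 ^ r * q.1} :=
    measurableSet_le (hg.comp measurable_snd) (measurable_const.mul measurable_fst)
  have h2 : MeasurableSet {q : ℝ × (ℝ × ℝ) | 2 ^ r * q.1 / 2 < g q.2} :=
    measurableSet_lt ((measurable_const.mul measurable_fst).div_const 2)
      (hg.comp measurable_snd)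
  have h3 : MeasurableSet {q : ℝ × (ℝ × ℝ) | g q.2 ≤ 2 ^ r * q.1 ∧
      (r ≠ 0 → 2 ^ r * q.1 / 2 < g q.2)} := by
    by_cases hr : r = 0
    · have : {q : ℝ × (ℝ × ℝ) | g q.2 ≤ 2 ^ r * q.1 ∧
          (r ≠ 0 → 2 ^ r * q.1 / 2 < g q.2)} = {q : ℝ × (ℝ × ℝ) | g q.2 ≤ 2 ^ r * q.1} := by
        ext q
        simp [hr]
      rw [this]
      exact h1
    · have : {q : ℝ × (ℝ × ℝ) | g q.2 ≤ 2 ^ r * q.1 ∧
          (r ≠ 0 → 2 ^ r * q.1 / 2 < g q.2)} = {q : ℝ × (ℝ × ℝ) | g q.2 ≤ 2 ^ r * q.1} ∩
            {q : ℝ × (ℝ × ℝ) | 2 ^ r * q.1 / 2 < g q.2} := by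
        ext q
        simp [hr]
      rw [this]
      exact h1.inter h2
  exact Measurable.ite h3 (hg.comp measurable_snd) measurable_const

/-- values of `Lv` -/
lemma Lv_zero_or (g : ℝ × ℝ → ℝ) (lam : ℝ) (r : ℕ) (z : ℝ × ℝ) :
    Lv g lam r z = 0 ∨ (Lv g lam r z = g z ∧ g z ≤ 2 ^ r * lam ∧
      (r ≠ 0 → 2 ^ r * lam / 2 < g z)) := by
  classical
  unfold Lv
  split_ifs with h
  · exact Or.inr ⟨rfl, h⟩
  · exact Or.inl rfl

theorem hLI : StLI := by
  intro p hp1 hp2
  have hp1' : 0 < p - 1 := by linarith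
  have hp2' : 0 < 2 - p := by linarith
  have h2p : (1 : ℝ) ≤ 2 ^ (p - 1) := Real.one_le_rpow (by norm_num) hp1'.le
  refine ⟨2 ^ (p - 1) / (p - 1) + 1 / (2 - p), by positivity, ?_⟩
  set C : ℝ := 2 ^ (p - 1) / (p - 1) + 1 / (2 - p) with hC
  have hC1 : 2 ^ (p - 1) / (p - 1) ≤ C := by
    rw [hC]
    have : 0 < 1 / (2 - p) := by positivity
    linarith
  have hC2 : 1 / (2 - p) ≤ C := by
    rw [hC]
    have : 0 < 2 ^ (p - 1) / (p - 1) := by positivity
    linarith
  have hC3 : 1 / (p - 1) ≤ C := le_trans (by gcongr) hC1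
  intro g hg hg0
  refine ⟨?_, ?_, ?_⟩
  · -- first
    have hcongr : ∀ lam : ℝ, ∫⁻ z in {z | lam < g z}, ENNReal.ofReal (g z) =
        ∫⁻ z, ({z | lam < g z} : Set (ℝ × ℝ)).indicator (fun z => ENNReal.ofReal (g z)) z := by
      intro lam
      rw [lintegral_indicator (measurableSet_lt measurable_const hg)]
    simp only [hcongr]
    refine tonelli _ (measurable_rp _) (fun x => ENNReal.ofReal_ne_top)
      (fun lam z => ({z | lam < g z} : Set (ℝ × ℝ)).indicator (fun z => ENNReal.ofReal (g z)) z)
      ?_ _ _ ENNReal.ofReal_ne_top ?_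
    · have h1 : MeasurableSet {q : ℝ × (ℝ × ℝ) | q.1 < g q.2} :=
        measurableSet_lt measurable_fst (hg.comp measurable_snd)
      have h2 : (fun q : ℝ × (ℝ × ℝ) => ({z | q.1 < g z} : Set (ℝ × ℝ)).indicator
          (fun z => ENNReal.ofReal (g z)) q.2) =
          {q : ℝ × (ℝ × ℝ) | q.1 < g q.2}.indicator (fun q => ENNReal.ofReal (g q.2)) := by
        ext q
        by_cases h : q.1 < g q.2
        · simp [h]
        · simp [h]
      rw [h2]
      exact ((hg.comp measurable_snd).ennreal_ofReal).indicator h1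
    · intro z
      have h3 : ∀ lam : ℝ, ENNReal.ofReal (lam ^ (p - 2)) *
          ({z | lam < g z} : Set (ℝ × ℝ)).indicator (fun z => ENNReal.ofReal (g z)) z =
          (Iio (g z)).indicator (fun lam => ENNReal.ofReal (lam ^ (p - 2))) lam *
            ENNReal.ofReal (g z) := by
        intro lam
        by_cases h : lam < g z
        · simp [h]
        · simp [h]
      calc ∫⁻ lam in Ioi (0 : ℝ), ENNReal.ofReal (lam ^ (p - 2)) *
          ({z | lam < g z} : Set (ℝ × ℝ)).indicator (fun z => ENNReal.ofReal (g z)) z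
          = ∫⁻ lam in Ioi (0 : ℝ), (Iio (g z)).indicator
              (fun lam => ENNReal.ofReal (lam ^ (p - 2))) lam * ENNReal.ofReal (g z) :=
            lintegral_congr h3
        _ = (∫⁻ lam in Ioi (0 : ℝ), (Iio (g z)).indicator
              (fun lam => ENNReal.ofReal (lam ^ (p - 2))) lam) * ENNReal.ofReal (g z) :=
            lintegral_mul_const' _ _ ENNReal.ofReal_ne_top
        _ = (∫⁻ lam in Ioo (0 : ℝ) (g z), ENNReal.ofReal (lam ^ (p - 1 - 1))) *
              ENNReal.ofReal (g z) := by
            rw [setLIntegral_indicator measurableSet_Iio, Iio_inter_Ioi]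
            have : p - 2 = p - 1 - 1 := by ring
            rw [this]
        _ = ENNReal.ofReal (g z ^ (p - 1) / (p - 1)) * ENNReal.ofReal (g z) := by
            rw [lintegral_low _ _ hp1' (hg0 z)]
        _ ≤ ENNReal.ofReal C * ENNReal.ofReal (g z) ^ p := by
            rw [ENNReal.ofReal_rpow_of_nonneg (hg0 z) (by linarith),
              ← ENNReal.ofReal_mul (by positivity [hg0 z] : 0 ≤ g z ^ (p - 1) / (p - 1)),
              ← ENNReal.ofReal_mul (by positivity)]
            refine ENNReal.ofReal_le_ofReal ?_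
            rcases (hg0 z).eq_or_lt with h0 | h0
            · rw [← h0]
              have : (0 : ℝ) ^ p = 0 := Real.zero_rpow (by linarith)
              rw [this]
              simp
            · have e1 : g z ^ (p - 1) / (p - 1) * g z = 1 / (p - 1) * g z ^ p := by
                have : g z ^ p = g z ^ (p - 1) * g z := by
                  rw [← Real.rpow_add_one h0.ne']
                  ring_nf
                rw [this]
                ring
              rw [e1]
              gcongr
  · -- second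
    intro r hr
    refine tonelli _ (measurable_rp _) (fun x => ENNReal.ofReal_ne_top)
      (fun lam z => ENNReal.ofReal (Lv g lam r z)) (measurable_Lv g hg r).ennreal_ofReal
      _ _ ENNReal.ofReal_ne_top ?_
    intro z
    rcases (hg0 z).eq_or_lt with h0 | h0
    · have : ∀ lam : ℝ, ENNReal.ofReal (Lv g lam r z) = 0 := by
        intro lam
        rcases Lv_zero_or g lam r z with h | h
        · rw [h]; simp
        · rw [h.1, ← h0]; simp
      simp [this]
    · have hT : 0 < g z * 2 / 2 ^ r := by positivity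
      have h3 : ∀ lam : ℝ, ENNReal.ofReal (lam ^ (p - 2)) * ENNReal.ofReal (Lv g lam r z) ≤
          (Iio (g z * 2 / 2 ^ r)).indicator (fun lam => ENNReal.ofReal (lam ^ (p - 2))) lam *
            ENNReal.ofReal (g z) := by
        intro lam
        rcases Lv_zero_or g lam r z with h | h
        · rw [h]; simp
        · have h4 : lam ∈ Iio (g z * 2 / 2 ^ r) := by
            have h5 := h.2.2 (by omega)
            rw [mem_Iio, lt_div_iff₀ (by positivity)]
            linarith
          rw [indicator_of_mem h4, h.1]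
      calc ∫⁻ lam in Ioi (0 : ℝ), ENNReal.ofReal (lam ^ (p - 2)) * ENNReal.ofReal (Lv g lam r z)
          ≤ ∫⁻ lam in Ioi (0 : ℝ), (Iio (g z * 2 / 2 ^ r)).indicator
              (fun lam => ENNReal.ofReal (lam ^ (p - 2))) lam * ENNReal.ofReal (g z) :=
            lintegral_mono h3
        _ = (∫⁻ lam in Ioi (0 : ℝ), (Iio (g z * 2 / 2 ^ r)).indicator
              (fun lam => ENNReal.ofReal (lam ^ (p - 2))) lam) * ENNReal.ofReal (g z) :=
            lintegral_mul_const' _ _ ENNReal.ofReal_ne_top
        _ = (∫⁻ lam in Ioo (0 : ℝ) (g z * 2 / 2 ^ r), ENNReal.ofReal (lam ^ (p - 1 - 1))) *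
              ENNReal.ofReal (g z) := by
            rw [setLIntegral_indicator measurableSet_Iio, Iio_inter_Ioi]
            have : p - 2 = p - 1 - 1 := by ring
            rw [this]
        _ = ENNReal.ofReal ((g z * 2 / 2 ^ r) ^ (p - 1) / (p - 1)) * ENNReal.ofReal (g z) := by
            rw [lintegral_low _ _ hp1' hT.le]
        _ ≤ ENNReal.ofReal (C * (2 : ℝ) ^ (-(r * (p - 1)))) * ENNReal.ofReal (g z) ^ p := by
            rw [ENNReal.ofReal_rpow_of_nonneg (hg0 z) (by linarith),
              ← ENNReal.ofReal_mul (by positivity), ← ENNReal.ofReal_mul (by positivity)]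
            refine ENNReal.ofReal_le_ofReal ?_
            have e0 : (g z * 2 / 2 ^ r) ^ (p - 1) =
                g z ^ (p - 1) * 2 ^ (p - 1) * (2 : ℝ) ^ (-(r * (p - 1))) := by
              rw [Real.div_rpow (by positivity) (by positivity),
                Real.mul_rpow h0.le (by norm_num), Real.rpow_neg (by norm_num),
                Real.rpow_mul (by norm_num), Real.rpow_natCast]
              rfl
            have e1 : (g z * 2 / 2 ^ r) ^ (p - 1) / (p - 1) * g z =
                (2 ^ (p - 1) / (p - 1)) * (2 : ℝ) ^ (-(r * (p - 1))) * g z ^ p := by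
              have : g z ^ p = g z ^ (p - 1) * g z := by
                rw [← Real.rpow_add_one h0.ne']
                ring_nf
              rw [this, e0]
              ring
            rw [e1]
            gcongr
  · -- third
    intro r
    refine tonelli _ (measurable_rp _) (fun x => ENNReal.ofReal_ne_top)
      (fun lam z => ENNReal.ofReal (Lv g lam r z) ^ 2)
      ((measurable_Lv g hg r).ennreal_ofReal.pow_const 2)
      _ _ ENNReal.ofReal_ne_top ?_
    intro z
    rcases (hg0 z).eq_or_lt with h0 | h0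
    · have : ∀ lam : ℝ, ENNReal.ofReal (Lv g lam r z) = 0 := by
        intro lam
        rcases Lv_zero_or g lam r z with h | h
        · rw [h]; simp
        · rw [h.1, ← h0]; simp
      simp [this]
    · have hT : 0 < g z / 2 ^ r := by positivity
      have h3 : ∀ lam : ℝ, ENNReal.ofReal (lam ^ (p - 3)) *
          ENNReal.ofReal (Lv g lam r z) ^ 2 ≤
          (Ici (g z / 2 ^ r)).indicator (fun lam => ENNReal.ofReal (lam ^ (p - 3))) lam *
            ENNReal.ofReal (g z) ^ 2 := by
        intro lam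
        rcases Lv_zero_or g lam r z with h | h
        · rw [h]; simp
        · have h4 : lam ∈ Ici (g z / 2 ^ r) := by
            have h5 := h.2.1
            rw [mem_Ici, div_le_iff₀ (by positivity)]
            linarith
          rw [indicator_of_mem h4, h.1]
      have hsub : Ici (g z / 2 ^ r) ∩ Ioi 0 = Ici (g z / 2 ^ r) := by
        apply inter_eq_left.2
        intro x hx
        exact lt_of_lt_of_le hT hx
      calc ∫⁻ lam in Ioi (0 : ℝ), ENNReal.ofReal (lam ^ (p - 3)) *
            ENNReal.ofReal (Lv g lam r z) ^ 2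
          ≤ ∫⁻ lam in Ioi (0 : ℝ), (Ici (g z / 2 ^ r)).indicator
              (fun lam => ENNReal.ofReal (lam ^ (p - 3))) lam * ENNReal.ofReal (g z) ^ 2 :=
            lintegral_mono h3
        _ = (∫⁻ lam in Ioi (0 : ℝ), (Ici (g z / 2 ^ r)).indicator
              (fun lam => ENNReal.ofReal (lam ^ (p - 3))) lam) * ENNReal.ofReal (g z) ^ 2 :=
            lintegral_mul_const' _ _ (ENNReal.pow_ne_top ENNReal.ofReal_ne_top)
        _ = (∫⁻ lam in Ioi (g z / 2 ^ r), ENNReal.ofReal (lam ^ (-(2 - p) - 1))) *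
              ENNReal.ofReal (g z) ^ 2 := by
            rw [setLIntegral_indicator measurableSet_Ici, hsub,
              setLIntegral_congr (Ioi_ae_eq_Ici (a := g z / 2 ^ r)).symm]
            have : p - 3 = -(2 - p) - 1 := by ring
            rw [this]
        _ = ENNReal.ofReal ((g z / 2 ^ r) ^ (-(2 - p)) / (2 - p)) * ENNReal.ofReal (g z) ^ 2 := by
            rw [lintegral_high _ _ hp2' hT]
        _ ≤ ENNReal.ofReal (C * (2 : ℝ) ^ (r * (2 - p))) * ENNReal.ofReal (g z) ^ p := by
            rw [ENNReal.ofReal_rpow_of_nonneg (hg0 z) (by linarith),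
              ← ENNReal.ofReal_pow (hg0 z),
              ← ENNReal.ofReal_mul (by positivity), ← ENNReal.ofReal_mul (by positivity)]
            refine ENNReal.ofReal_le_ofReal ?_
            have e0 : (g z / 2 ^ r) ^ (-(2 - p)) =
                g z ^ (-(2 - p)) * (2 : ℝ) ^ (r * (2 - p)) := by
              rw [Real.div_rpow h0.le (by positivity), Real.rpow_neg (x := (2 : ℝ) ^ r) (by positivity),
                Real.rpow_mul (by norm_num), Real.rpow_natCast]
              rw [div_inv_eq_mul]
            have e1 : (g z / 2 ^ r) ^ (-(2 - p)) / (2 - p) * g z ^ 2 =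
                (1 / (2 - p)) * (2 : ℝ) ^ (r * (2 - p)) * g z ^ p := by
              have : g z ^ p = g z ^ (-(2 - p)) * g z ^ 2 := by
                rw [← Real.rpow_natCast (g z) 2, ← Real.rpow_add h0]
                congr 1
                push_cast
                ring
              rw [this, e0]
              ring
            rw [e1]
            gcongr

end Pool.Agent.Helper23.LM2
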